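import Mathlib
import Pool.Agent.U945.LA.Many
import Pool.Agent.U945.LA.SeqR

/-!
# `(x π) ^ (β π)` and larger exponents, for the terms `x` of explicit sequences

We say that a real algebraic number `x > 0` is good if ALL numbers `(x π) ^ (β π)` with real algebraic
`β ≠ 0` are transcendental (`π ^ π` is the number for `x = β = 1`). We show that nearly all terms of the
following sequences are good.

(1) `x = |r(q)|`, for every rational function `r` over `ℚ` with at least three different zeros and poles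
on the projective line over `ℂ` (for instance `r = X ^ 2 + 1`): all rational `q`, with finitely many
exceptions.

(2) `x = c_1 a_1 ^ n + ⋯ + c_k a_k ^ n > 0`, for nonzero algebraic `c_i`, `a_i` such that no `a_i / a_j`,
`i ≠ j`, is a root of unity, `k ≥ 2`: all integers `n` with finitely many exceptions. If `k = 2` there are
at most `C` exceptions, with an absolute constant `C`. The same for `c a ^ n + d b ^ m` and the pairs
`(n, m)` of integers, if `a` and `b` are multiplicatively independent.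

(3) The positive integers `n`, not divisible by `b`, with at most `k` nonzero digits in base `b`: all of
them with finitely many exceptions.

(4) Let `t_1, …, t_r` and `z_1, …, z_s` be arbitrary complex numbers and `D ≥ 1`. The same statements are
proved for complex algebraic `x` and all numbers `x ^ ξ π ^ η e ^ (η_1 z_1 + ⋯ + η_s z_s)`, for ALL exponents
`ξ`, `η`, `η_k` which are quotients, with a common denominator, of polynomials in `π, t_1, …, t_r` with
algebraic coefficients and of degree `≤ D` in each variable, `ξ` transcendental: with these exceptions no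
value of such a number is of the form `e ^ w` with `w` in `LogForms`. For instance (`r = 0`, `s = 1`,
`z_1 = 1`) for all but finitely many rational numbers `q` all numbers
`(q ^ 2 + 1) ^ P(π) π ^ Q(π) e ^ S(π)` are transcendental, for all polynomials `P`, `Q`, `S` with algebraic
coefficients of degree `≤ D`, `P` not constant.

Ingredients: the hyperplane case of the linear subgroup theorem of Waldschmidt and Roy, Baker's theorem
(rank bounds for the exceptional `x`, `Pool.Agent.U945.LA`), the unit equation in groups of finite rank of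
algebraic numbers, the Thue-Mahler theorem, and the theorem of Beukers and Schlickewei.
-/

set_option autoImplicit false

namespace Pool.Agent.Results.MP_7fde5c_nt.ExplicitSequences

open Polynomial
open Pool.Agent.U945.LA (RkLe rkLe_of_logs many' rat_set recur_set digits_set two_set)
open Pool.Agent.H301R2.SSE (QB mem_QB Lt Lt_one Lt_log Lt_mul Lg mem_Lg)

/-- The linear combinations, with algebraic coefficients, of `1` and of logarithms of algebraic
numbers. The numbers `e ^ w` with `w` in `LogForms` are the numbers `e ^ γ α_1 ^ β_1 ⋯ α_k ^ β_k` with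
algebraic `γ`, `α_i ≠ 0`, `β_i`; if `e ^ w` is algebraic, then `w` is in `LogForms`. -/
noncomputable def LogForms : Submodule (algebraicClosure ℚ ℂ) ℂ :=
  Submodule.span (algebraicClosure ℚ ℂ) ({1} ∪ {z : ℂ | IsAlgebraic ℚ (Complex.exp z)})

/-- `l` is a logarithm of `x`, up to a rational multiple of `2 π i` -/
def IsLog (x : ℂˣ) (l : ℂ) : Prop := ∃ n : ℕ, 0 < n ∧ Complex.exp (n * l) = (x : ℂ) ^ n

/-- The algebraic numbers `x ≠ 0` such that, for some algebraic `β ≠ 0` and some logarithm `l` of `x`,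
the logarithm `β π (l + log π)` of `(x π) ^ (β π)` is in `LogForms`. -/
def Family : Set ℂˣ :=
  {x | IsAlgebraic ℚ (x : ℂ) ∧ ∃ β : ℂ, IsAlgebraic ℚ β ∧ β ≠ 0 ∧ ∃ l : ℂ, IsLog x l ∧
    β * Real.pi * (l + Real.log Real.pi) ∈ LogForms}

/-- The tuples `(ξ, η)` with `ξ = P(t) / Q(t)` transcendental and `η_k = S_k(t) / Q(t)`, where `P`, `Q`,
`S_k` are polynomials with algebraic coefficients, of degree at most `D` in each variable. -/
def Exponents {r s : ℕ} (t : Fin r → ℂ) (D : ℕ) : Set (ℂ × (Fin s → ℂ)) :=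
  {e | Transcendental ℚ e.1 ∧ ∃ (P Q : MvPolynomial (Fin r) (algebraicClosure ℚ ℂ))
    (S : Fin s → MvPolynomial (Fin r) (algebraicClosure ℚ ℂ)),
    (∀ i, P.degreeOf i ≤ D) ∧ (∀ i, Q.degreeOf i ≤ D) ∧ (∀ k i, (S k).degreeOf i ≤ D) ∧
    MvPolynomial.aeval t Q ≠ 0 ∧ e.1 = MvPolynomial.aeval t P / MvPolynomial.aeval t Q ∧
    ∀ k, e.2 k = MvPolynomial.aeval t (S k) / MvPolynomial.aeval t Q}

/-- The algebraic numbers `x ≠ 0` such that `ξ l + ∑ k, η_k z_k`, the logarithm of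
`x ^ ξ e ^ (∑ k, η_k z_k)`, is in `LogForms` for SOME logarithm `l` of `x` and SOME exponents. -/
def Bases {r s : ℕ} (t : Fin r → ℂ) (z : Fin s → ℂ) (D : ℕ) : Set ℂˣ :=
  {x | IsAlgebraic ℚ (x : ℂ) ∧ ∃ e ∈ Exponents t D, ∃ l : ℂ, IsLog x l ∧
    e.1 * l + ∑ k, e.2 k * z k ∈ LogForms}

/-- All numbers `(x π) ^ (β π)` are transcendental. -/
def AllTranscendental (x : ℝ) : Prop :=
  ∀ β : ℝ, IsAlgebraic ℚ β → β ≠ 0 → Transcendental ℚ ((x * Real.pi) ^ (β * Real.pi))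

/-- The number of different zeros and poles of the rational function `P / Q` on the projective line
over `ℂ`, for nonzero coprime polynomials `P` and `Q`: the number of the complex roots of `P Q`, without
multiplicity, plus one if the degrees are different (the point at infinity). -/
noncomputable def points (P Q : ℚ[X]) : ℕ :=
  ((P * Q).map (algebraMap ℚ ℂ)).roots.toFinset.card + if P.natDegree = Q.natDegree then 0 else 1

/-- The natural numbers with at most `k` nonzero digits in base `b`. -/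
def Few (b k : ℕ) : Set ℕ :=
  {n | ∃ J : Finset ℕ, J.card ≤ k ∧ ∃ d : ℕ → ℕ, (∀ m ∈ J, 0 < d m ∧ d m < b) ∧
    n = ∑ m ∈ J, d m * b ^ m}

theorem pi_tr : Transcendental ℚ ((Real.pi : ℝ) : ℂ) :=
  Pool.Agent.HP778.ofReal_transcendental Pool.Agent.H340R2.LW.transcendental_pi

theorem pi_ne : ((Real.pi : ℝ) : ℂ) ≠ 0 := by exact_mod_cast Real.pi_ne_zero

theorem enc_le {α : Type} {s : Set α} {C : ℕ}
    (h : ∀ E : Finset α, (∀ e ∈ E, e ∈ s) → E.card ≤ C) : s.encard ≤ C := by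
  classical
  by_contra hcon
  push Not at hcon
  obtain ⟨t, ht, hc⟩ := Set.exists_subset_encard_eq (Order.add_one_le_of_lt hcon)
  have hfin : t.Finite := Set.finite_of_encard_eq_coe (k := C + 1) (by rw [hc]; push_cast; rfl)
  have h1 := h hfin.toFinset (fun e he => ht (hfin.mem_toFinset.1 he))
  have h2 : (hfin.toFinset.card : ℕ∞) = C + 1 := by
    rw [← Set.encard_coe_eq_coe_finsetCard, hfin.coe_toFinset, hc]
  have h3 : hfin.toFinset.card = C + 1 := by exact_mod_cast h2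
  omega

theorem real_alg {x : ℝ} (h : IsAlgebraic ℚ x) : IsAlgebraic ℚ (x : ℂ) := h.algebraMap (A := ℂ)

theorem mem_family {x : ℝ} (hx : 0 < x) (hxa : IsAlgebraic ℚ x) (h : ¬ AllTranscendental x) :
    ∃ u ∈ Family, (u : ℂ) = x := by
  have hne : (x : ℂ) ≠ 0 := by exact_mod_cast hx.ne'
  unfold AllTranscendental at h
  push Not at h
  obtain ⟨β, hβ, hβ0, h⟩ := h
  have h1 := real_alg (not_not.1 h)
  rw [Real.rpow_def_of_pos (mul_pos hx Real.pi_pos), Real.log_mul hx.ne' Real.pi_pos.ne',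
    Complex.ofReal_exp] at h1
  refine ⟨Units.mk0 _ hne, ⟨real_alg hxa, β, real_alg hβ, by exact_mod_cast hβ0,
    (Real.log x : ℝ), ⟨1, one_pos, ?_⟩, ?_⟩, rfl⟩
  · rw [Nat.cast_one, one_mul, pow_one, Units.val_mk0, ← Complex.ofReal_exp, Real.exp_log hx]
  · have e1 : (β : ℂ) * Real.pi * ((Real.log x : ℝ) + (Real.log Real.pi : ℝ)) =
        (((Real.log x + Real.log Real.pi) * (β * Real.pi) : ℝ) : ℂ) := by
      push_cast
      ring
    rw [e1]
    exact Lt_log h1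

/-- the set of all exceptional numbers for larger exponents -/
def Large (r s D : ℕ) (t : Fin r → ℂ) (z : Fin s → ℂ) : Set ℂˣ :=
  Bases (Fin.cons (Real.pi : ℂ) t : Fin (r + 1) → ℂ)
    (Fin.cons (Real.log Real.pi : ℂ) z : Fin (s + 1) → ℂ) D

theorem large_rank {r s D : ℕ} (hD : 1 ≤ D) (t : Fin r → ℂ) (z : Fin s → ℂ) :
    RkLe (Large r s D t z) (2 ^ (r + 2) * ((2 * D) ^ (r + 1) + s) - 1) := by
  refine rkLe_of_logs (A := Large r s D t z) (R := fun l => ∃ x y, Pool.Agent.U945.LA.IsQuots D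
    (Fin.cons (Real.pi : ℂ) t : Fin (r + 1) → ℂ) x y ∧ Transcendental ℚ x ∧
      x * l + ∑ k, y k * (Fin.cons (Real.log Real.pi : ℂ) z : Fin (s + 1) → ℂ) k ∈ Lt)
    (fun m l halg hli h => ?_) (fun x hx => ?_)
  · have h1 := many' (Fin.cons (Real.pi : ℂ) t : Fin (r + 1) → ℂ)
      (Fin.cons (Real.log Real.pi : ℂ) z : Fin (s + 1) → ℂ) hD 0
      (by rw [Fin.cons_zero]; exact pi_tr)
      (by rw [Fin.cons_zero]; exact Pool.Agent.HP778.pi_mem_Lt) l halg hli h
    have e1 : 2 ^ (r + 1 + 1) * ((2 * D) ^ (r + 1) + (s + 1) - 1) =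
        2 ^ (r + 2) * ((2 * D) ^ (r + 1) + s) := by
      congr 1
    rw [e1] at h1
    omega
  · obtain ⟨hxa, e, ⟨htr, P, Q, S, h1, h2, h3, h4, h5, h6⟩, l, hl, h7⟩ := hx
    exact ⟨hxa, l, hl, e.1, e.2, ⟨P, Q, S, h1, h2, h3, h4, h5, h6⟩, htr, h7⟩

theorem large_alg {r s D : ℕ} (t : Fin r → ℂ) (z : Fin s → ℂ) :
    ∀ x ∈ Large r s D t z, IsAlgebraic ℚ (x : ℂ) := fun _ hx => hx.1

theorem family_sub {r s D : ℕ} (hD : 1 ≤ D) (t : Fin r → ℂ) (z : Fin s → ℂ) :
    Family ⊆ Large r s D t z := by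
  rintro x ⟨hxa, β, hβ, hβ0, l, hl, h1⟩
  set b : algebraicClosure ℚ ℂ := ⟨β, mem_QB.2 hβ⟩ with hb
  refine ⟨hxa, (β * Real.pi, Fin.cons (β * Real.pi) 0), ⟨fun halg => ?_,
    MvPolynomial.C b * MvPolynomial.X 0, 1, Fin.cons (MvPolynomial.C b * MvPolynomial.X 0) 0,
    fun i => ?_, fun i => ?_, fun k i => ?_, ?_, ?_, fun k => ?_⟩, l, hl, ?_⟩
  · apply pi_tr
    have h2 : ((Real.pi : ℝ) : ℂ) = β⁻¹ * (β * Real.pi) := by field_simp
    rw [h2]
    exact hβ.inv.mul halg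
  · refine (MvPolynomial.degreeOf_C_mul_le _ _ _).trans ?_
    rw [MvPolynomial.degreeOf_X]
    split_ifs <;> omega
  · rw [MvPolynomial.degreeOf_one]; exact Nat.zero_le _
  · refine Fin.cases ?_ (fun k => ?_) k
    · rw [Fin.cons_zero]
      refine (MvPolynomial.degreeOf_C_mul_le _ _ _).trans ?_
      rw [MvPolynomial.degreeOf_X]
      split_ifs <;> omega
    · rw [Fin.cons_succ, Pi.zero_apply, MvPolynomial.degreeOf_zero]; exact Nat.zero_le _
  · simp
  · simp [hb]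
  · refine Fin.cases ?_ (fun k => ?_) k
    · simp [hb]
    · simp
  · rw [Fin.sum_univ_succ]
    simp only [Fin.cons_zero, Fin.cons_succ, Pi.zero_apply, zero_mul, Finset.sum_const_zero,
      add_zero]
    have h2 : β * Real.pi * l + β * Real.pi * (Real.log Real.pi : ℂ) =
        β * Real.pi * (l + Real.log Real.pi) := by ring
    rw [h2]
    exact h1

theorem recur' {A : Set ℂˣ} (halg : ∀ x ∈ A, IsAlgebraic ℚ (x : ℂ)) {B : ℕ} (hB : RkLe A B)
    {k : ℕ} (hk : 2 ≤ k) (c a : Fin k → ℂ) (hc : ∀ i, IsAlgebraic ℚ (c i) ∧ c i ≠ 0)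
    (ha : ∀ i, IsAlgebraic ℚ (a i) ∧ a i ≠ 0)
    (hne : ∀ i j, i ≠ j → ∀ n : ℕ, n ≠ 0 → a i ^ n ≠ a j ^ n) :
    {n : ℤ | ∃ x ∈ A, (x : ℂ) = ∑ i, c i * a i ^ n}.Finite := by
  refine (recur_set halg hB hk (fun i => Units.mk0 _ (hc i).2) (fun i => Units.mk0 _ (ha i).2)
    (fun i => (hc i).1) (fun i => (ha i).1) (fun i j hij n hn h => hne i j hij n hn ?_)).subset ?_
  · have := congrArg (fun u : ℂˣ => (u : ℂ)) h
    simpa using this
  · rintro n ⟨x, hx, h⟩
    refine ⟨x, hx, ?_⟩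
    rw [h]
    refine Finset.sum_congr rfl fun i _ => ?_
    rw [Units.val_mul, Units.val_zpow_eq_zpow_val, Units.val_mk0, Units.val_mk0]

/-- **Explicit sequences.** -/
theorem result :
    -- (1) values of rational functions
    (∀ P Q : ℚ[X], P ≠ 0 → Q ≠ 0 → IsCoprime P Q → 3 ≤ points P Q →
      {q : ℚ | P.eval q ≠ 0 ∧ Q.eval q ≠ 0 ∧
        ¬ AllTranscendental |((P.eval q / Q.eval q : ℚ) : ℝ)|}.Finite) ∧
    -- (2) recurrences
    (∀ (k : ℕ) (c a : Fin k → ℂ), 2 ≤ k → (∀ i, IsAlgebraic ℚ (c i) ∧ c i ≠ 0) →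
      (∀ i, IsAlgebraic ℚ (a i) ∧ a i ≠ 0) →
      (∀ i j, i ≠ j → ∀ n : ℕ, n ≠ 0 → a i ^ n ≠ a j ^ n) →
      {n : ℤ | ∃ x : ℝ, 0 < x ∧ (x : ℂ) = ∑ i, c i * a i ^ n ∧ ¬ AllTranscendental x}.Finite) ∧
    -- (3) few digits
    (∀ b k : ℕ, 2 ≤ b → {n : ℕ | n ∈ Few b k ∧ ¬ b ∣ n ∧ ¬ AllTranscendental n}.Finite) ∧
    ∃ C : ℕ,
      -- (2) two powers
      (∀ c d a b : ℂ, c ≠ 0 → d ≠ 0 → a ≠ 0 → b ≠ 0 →
        ((∀ n : ℕ, n ≠ 0 → a ^ n ≠ b ^ n) → {n : ℤ | ∃ x : ℝ, 0 < x ∧ IsAlgebraic ℚ x ∧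
          (x : ℂ) = c * a ^ n + d * b ^ n ∧ ¬ AllTranscendental x}.encard ≤ C) ∧
        ((∀ n m : ℤ, a ^ n = b ^ m → n = 0 ∧ m = 0) → {e : ℤ × ℤ | ∃ x : ℝ, 0 < x ∧
          IsAlgebraic ℚ x ∧ (x : ℂ) = c * a ^ e.1 + d * b ^ e.2 ∧
            ¬ AllTranscendental x}.encard ≤ C)) ∧
      -- (4) larger exponents
      ∀ (A : Set ℂˣ) (r s D R : ℕ) (t : Fin r → ℂ) (z : Fin s → ℂ), 1 ≤ D →
        R = 2 ^ (r + 2) * ((2 * D) ^ (r + 1) + s) →
        A = Bases (Fin.cons (Real.pi : ℂ) t : Fin (r + 1) → ℂ)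
          (Fin.cons (Real.log Real.pi : ℂ) z : Fin (s + 1) → ℂ) D →
        Family ⊆ A ∧
        (∀ P Q : ℚ[X], P ≠ 0 → Q ≠ 0 → IsCoprime P Q → 3 ≤ points P Q →
          {q : ℚ | P.eval q ≠ 0 ∧ Q.eval q ≠ 0 ∧
            ∃ x ∈ A, (x : ℂ) = ((P.eval q / Q.eval q : ℚ) : ℂ)}.Finite) ∧
        (∀ (k : ℕ) (c a : Fin k → ℂ), 2 ≤ k → (∀ i, IsAlgebraic ℚ (c i) ∧ c i ≠ 0) →
          (∀ i, IsAlgebraic ℚ (a i) ∧ a i ≠ 0) →
          (∀ i j, i ≠ j → ∀ n : ℕ, n ≠ 0 → a i ^ n ≠ a j ^ n) →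
          {n : ℤ | ∃ x ∈ A, (x : ℂ) = ∑ i, c i * a i ^ n}.Finite) ∧
        (∀ b k : ℕ, 2 ≤ b → {n : ℕ | n ∈ Few b k ∧ ¬ b ∣ n ∧ ∃ x ∈ A, (x : ℂ) = n}.Finite) ∧
        (∀ c d a b : ℂ, c ≠ 0 → d ≠ 0 → a ≠ 0 → b ≠ 0 →
          ((∀ n : ℕ, n ≠ 0 → a ^ n ≠ b ^ n) → {n : ℤ | ∃ x ∈ A,
            (x : ℂ) = c * a ^ n + d * b ^ n}.encard ≤ (C ^ R : ℕ)) ∧
          ((∀ n m : ℤ, a ^ n = b ^ m → n = 0 ∧ m = 0) → {e : ℤ × ℤ | ∃ x ∈ A,
            (x : ℂ) = c * a ^ e.1 + d * b ^ e.2}.encard ≤ (C ^ R : ℕ))) := by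
  obtain ⟨C, hC1, hC⟩ := two_set
  have hF : RkLe Family 7 := by
    have h1 := large_rank (r := 0) (s := 0) (D := 1) le_rfl Fin.elim0 Fin.elim0
    exact fun n X hX hmi => h1 n X (fun j => family_sub le_rfl Fin.elim0 Fin.elim0 (hX j)) hmi
  have hFa : ∀ x ∈ Family, IsAlgebraic ℚ (x : ℂ) := fun _ hx => hx.1
  refine ⟨fun P Q hP hQ hPQ h3 => ?_, fun k c a hk hc ha hne => ?_, fun b k hb => ?_, C ^ 10,
    fun c d a b hc hd ha hb => ⟨fun hab => enc_le fun E hE => ?_, fun hab => enc_le fun E hE => ?_⟩,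
    ?_⟩
  · refine (rat_set hF hP hQ hPQ h3).subset ?_
    rintro q ⟨h1, h2, h⟩
    have h0 : (P.eval q / Q.eval q : ℚ) ≠ 0 := div_ne_zero h1 h2
    obtain ⟨u, hu, hu'⟩ := mem_family (abs_pos.2 (by exact_mod_cast h0)) (by
      rw [← Rat.cast_abs]
      exact isAlgebraic_algebraMap (A := ℝ) _) h
    refine ⟨h1, h2, u, hu, ?_⟩
    rw [hu']
    rcases abs_choice ((P.eval q / Q.eval q : ℚ) : ℝ) with h4 | h4
    · left
      rw [h4]
      simp
    · right
      rw [h4]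
      simp
  · refine (recur' hFa hF hk c a hc ha hne).subset ?_
    rintro n ⟨x, hx, hs, h⟩
    have hxa : IsAlgebraic ℚ x := by
      have h1 : IsAlgebraic ℚ (x : ℂ) := by
        rw [hs]
        refine mem_QB.1 (sum_mem fun i _ => mem_QB.2 ((hc i).1.mul ?_))
        exact mem_QB.1 (zpow_mem (mem_QB.2 (ha i).1) n)
      exact (isAlgebraic_algebraMap_iff (R := ℚ) (A := ℂ) Complex.ofReal_injective).1 h1
    obtain ⟨u, hu, hu'⟩ := mem_family hx hxa h
    exact ⟨u, hu, by rw [hu', hs]⟩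
  · refine (digits_set hFa hF hb k).subset ?_
    rintro n ⟨h1, h2, h⟩
    have hn : 0 < n := Nat.pos_of_ne_zero fun h => h2 (h ▸ dvd_zero b)
    obtain ⟨u, hu, hu'⟩ := mem_family (x := (n : ℝ)) (by exact_mod_cast hn)
      (isAlgebraic_natCast n) h
    exact ⟨h1, h2, u, hu, by rw [hu']; simp⟩
  · refine (hC _ 7 hF c d a b hc hd ha hb).1 hab E fun n hn => ?_
    obtain ⟨x, hx, hxa, hs, h⟩ := hE n hn
    obtain ⟨u, hu, hu'⟩ := mem_family hx hxa h
    exact ⟨u, hu, by rw [hu', hs]⟩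
  · refine (hC _ 7 hF c d a b hc hd ha hb).2 hab E fun n hn => ?_
    obtain ⟨x, hx, hxa, hs, h⟩ := hE n hn
    obtain ⟨u, hu, hu'⟩ := mem_family hx hxa h
    exact ⟨u, hu, by rw [hu', hs]⟩
  · intro A r s D R t z hD hR hAe
    have hpos : 1 ≤ R := by
      rw [hR]
      apply Nat.mul_pos (by positivity)
      have : 0 < (2 * D) ^ (r + 1) := Nat.pow_pos (by omega)
      omega
    have hA : RkLe A (R - 1) := by
      rw [hAe, hR]
      exact large_rank hD t z
    have halg : ∀ x ∈ A, IsAlgebraic ℚ (x : ℂ) := by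
      intro x hx
      rw [hAe] at hx
      exact hx.1
    have hpow : C ^ (R - 1 + 3) ≤ (C ^ 10) ^ R := by
      rw [← pow_mul]
      exact Nat.pow_le_pow_right hC1 (by omega)
    refine ⟨by rw [hAe]; exact family_sub hD t z, fun P Q hP hQ hPQ h3 => ?_,
      fun k c a hk hc ha hne => recur' halg hA hk c a hc ha hne,
      fun b k hb => digits_set halg hA hb k,
      fun c d a b hc hd ha hb => ⟨fun hab => enc_le fun E hE => ?_,
        fun hab => enc_le fun E hE => ?_⟩⟩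
    · refine (rat_set hA hP hQ hPQ h3).subset ?_
      rintro q ⟨h1, h2, x, hx, h⟩
      exact ⟨h1, h2, x, hx, Or.inl h⟩
    · exact ((hC _ _ hA c d a b hc hd ha hb).1 hab E fun n hn => hE n hn).trans hpow
    · exact ((hC _ _ hA c d a b hc hd ha hb).2 hab E fun n hn => hE n hn).trans hpow

end Pool.Agent.Results.MP_7fde5c_nt.ExplicitSequences
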